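import Pool.Agent.Helper53.CTG.Goals

/-!
# PROJECT CTG (MP_8b4d68_lc), packet LSUB: the descriptors of the phases are in linear space
-/

set_option autoImplicit false

namespace Pool.Agent.Helper57.CTG

open Pool.Agent.Helper53.CTG
open Pool.Agent.Helper1.TE (cif GoalLCF)
open Pool.Agent.Helper65.LinSpace (Ctx LS)

section proj

variable {α : Type} [Ctx α] {f : α → De}

theorem ls_k (hf : LS f) : LS (fun a => (f a).k) := by unfold De.k; fun_prop
theorem ls_m (hf : LS f) : LS (fun a => (f a).m) := by unfold De.m; fun_prop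
theorem ls_v (hf : LS f) : LS (fun a => (f a).v) := by unfold De.v; fun_prop
theorem ls_i (hf : LS f) : LS (fun a => (f a).i) := by unfold De.i; fun_prop
theorem ls_T (hf : LS f) : LS (fun a => (f a).T) := by unfold De.T; fun_prop

theorem ls_De {k m e g v i T : α → ℕ} (h1 : LS k) (h0 : LS m) (h2 : LS e) (h3 : LS g) (h4 : LS v)
    (h5 : LS i) (h6 : LS T) : LS (fun a => ((k a, m a, e a, g a, v a, i a, T a) : De)) :=
  h1.prodMk (h0.prodMk (h2.prodMk (h3.prodMk (h4.prodMk (h5.prodMk h6)))))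

theorem ls_nod {v i T : α → ℕ} (h1 : LS v) (h2 : LS i) (h3 : LS T) :
    LS (fun a => nod (v a) (i a) (T a)) := by
  unfold nod
  exact ls_De (LS.const 0) (LS.const 0) (LS.const 0) (LS.const 0) h1 h2 h3

theorem ls_phV (hC : GoalLCF) {e v i T d : α → ℕ} (he : LS e) (h1 : LS v) (h2 : LS i) (h3 : LS T)
    (h4 : LS d) : LS (fun a => phV (e a) (v a) (i a) (T a) (d a)) := by
  have c0 : LS (fun _ : α => (0 : ℕ)) := LS.const 0
  unfold phV
  exact hC _ _ _ h4 (ls_De (LS.const 2) c0 c0 c0 c0 he (LS.const 1))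
    (hC _ _ _ (h4.sub (LS.const 1)) (ls_nod h1 h2 h3)
      (hC _ _ _ (h4.sub (LS.const 2)) (ls_De (LS.const 2) c0 c0 c0 c0 he (LS.const 2)) (LS.const _)))

theorem ls_ph (hC : GoalLCF) (k₁ k₂ : ℕ) {e f j v i T d : α → ℕ} (he : LS e) (hf : LS f)
    (hj : LS j) (h1 : LS v) (h2 : LS i) (h3 : LS T) (h4 : LS d) :
    LS (fun a => ph k₁ k₂ (e a) (f a) (j a) (v a) (i a) (T a) (d a)) := by
  have c0 : LS (fun _ : α => (0 : ℕ)) := LS.const 0
  have c1 : LS (fun _ : α => (1 : ℕ)) := LS.const 1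
  have c2 : LS (fun _ : α => (2 : ℕ)) := LS.const 2
  have c3 : LS (fun _ : α => (3 : ℕ)) := LS.const 3
  have k1 : LS (fun _ : α => k₁) := LS.const k₁
  have k2 : LS (fun _ : α => k₂) := LS.const k₂
  have f1 : LS (fun a => f a + 1) := hf.add c1
  have v2 : LS (fun a => 2 * v a) := c2.mul h1
  have v3 : LS (fun a => 2 * v a + 1) := v2.add c1
  unfold ph
  refine hC _ _ _ h4 (ls_De k1 c0 he c0 h1 hj c1) ?_
  refine hC _ _ _ (h4.sub (LS.const 1)) (ls_nod v2 hf c1) ?_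
  refine hC _ _ _ (h4.sub (LS.const 2)) (ls_De k2 c0 he c0 h1 hj c2) ?_
  refine hC _ _ _ (h4.sub (LS.const 3)) (ls_De k1 c1 he hf h1 hj c1) ?_
  refine hC _ _ _ (h4.sub (LS.const 4)) (ls_nod v3 f1 c1) ?_
  refine hC _ _ _ (h4.sub (LS.const 5)) (ls_De k2 c1 he hf h1 hj c2) ?_
  refine hC _ _ _ (h4.sub (LS.const 6)) (ls_De c3 c2 he hf h1 h2 h3) ?_
  refine hC _ _ _ (h4.sub (LS.const 7)) (ls_De k1 c1 he hf h1 hj c1) ?_
  refine hC _ _ _ (h4.sub (LS.const 8)) (ls_nod v3 f1 c2) ?_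
  refine hC _ _ _ (h4.sub (LS.const 9)) (ls_De k2 c1 he hf h1 hj c2) ?_
  refine hC _ _ _ (h4.sub (LS.const 10)) (ls_De k1 c0 he c0 h1 hj c1) ?_
  exact hC _ _ _ (h4.sub (LS.const 11)) (ls_nod v2 hf c2) (ls_De k2 c0 he c0 h1 hj c2)

theorem ls_phB (hC : GoalLCF) {q p v i T d : α → ℕ} (hq : LS q) (hp : LS p) (h1 : LS v)
    (h2 : LS i) (h3 : LS T) (h4 : LS d) :
    LS (fun a => phB (q a) (p a) (v a) (i a) (T a) (d a)) := by
  have c1 : LS (fun _ : α => (1 : ℕ)) := LS.const 1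
  have c2 : LS (fun _ : α => (2 : ℕ)) := LS.const 2
  have c3 : LS (fun _ : α => (3 : ℕ)) := LS.const 3
  have c4 : LS (fun _ : α => (4 : ℕ)) := LS.const 4
  unfold phB
  exact ls_ph hC 4 5 (c3.mul (hq.sub c1)) ((c3.mul hq).add (c2.mul hp)) ((c3.mul hq).add c4)
    h1 h2 h3 h4

theorem ls_phK (hC : GoalLCF) {e v i T d : α → ℕ} (he : LS e) (h1 : LS v)
    (h2 : LS i) (h3 : LS T) (h4 : LS d) :
    LS (fun a => phK (e a) (v a) (i a) (T a) (d a)) := by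
  unfold phK
  exact ls_ph hC 3 3 he (he.add (LS.const 1)) (he.add (LS.const 3)) h1 h2 h3 h4

end proj

theorem gLSUB : GoalLSUB := by
  intro hC
  refine ⟨?_, ?_⟩
  · have q : LS (fun x : (ℕ × De) × ℕ × ℕ => x.1.1) := by fun_prop
    have y : LS (fun x : (ℕ × De) × ℕ × ℕ => x.1.2) := by fun_prop
    have n : LS (fun x : (ℕ × De) × ℕ × ℕ => x.2.1) := by fun_prop
    have d : LS (fun x : (ℕ × De) × ℕ × ℕ => x.2.2) := by fun_prop
    have c0 : LS (fun _ : (ℕ × De) × ℕ × ℕ => (0 : ℕ)) := LS.const 0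
    have c1 : LS (fun _ : (ℕ × De) × ℕ × ℕ => (1 : ℕ)) := LS.const 1
    have c2 : LS (fun _ : (ℕ × De) × ℕ × ℕ => (2 : ℕ)) := LS.const 2
    have c3 : LS (fun _ : (ℕ × De) × ℕ × ℕ => (3 : ℕ)) := LS.const 3
    have r : LS (fun x : (ℕ × De) × ℕ × ℕ => x.2.1 % (x.1.1 + 1)) := n.mod (q.add c1)
    have s : LS (fun x : (ℕ × De) × ℕ × ℕ => x.2.1 / (x.1.1 + 1)) := n.div (q.add c1)
    have k := ls_k y
    have m := ls_m y
    have v := ls_v y
    have i := ls_i y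
    have T := ls_T y
    unfold sub
    refine hC _ _ _ k (hC _ _ _ m (hC _ _ _ (q.sub r) (ls_phV hC c0 v i T d) (hC _ _ _ r
      (ls_phB hC q (s.mod c2) v i T d) (ls_phK hC (c3.mul ((q.sub c1).sub r)) v i T d)))
      (ls_phV hC (c3.mul (q.sub r)) v i T d)) ?_
    exact hC _ _ _ d y (LS.const _)
  · have N : LS (fun x : ℕ × ℕ => x.1) := LS.fst
    have q : LS (fun x : ℕ × ℕ => x.2) := LS.snd
    have c0 : LS (fun _ : ℕ × ℕ => (0 : ℕ)) := LS.const 0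
    have c1 : LS (fun _ : ℕ × ℕ => (1 : ℕ)) := LS.const 1
    have c2 : LS (fun _ : ℕ × ℕ => (2 : ℕ)) := LS.const 2
    have c3 : LS (fun _ : ℕ × ℕ => (3 : ℕ)) := LS.const 3
    have H : LS (fun x : ℕ × ℕ => (x.1 - 1) / x.2 + 1) := ((N.sub c1).div q).add c1
    unfold root Hb
    exact ls_De c0 c1 c0 c0 c1 ((c3.mul q).add (c2.mul (H.mod c2))) c0

end Pool.Agent.Helper57.CTG
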