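import Pool.Agent.Helper53.CTG.Goals

/-!
# PROJECT CTG (MP_8b4d68_lc): packet CTG-FCS (after `Helper31/CTR/FCS.lean`)
-/

set_option autoImplicit false

namespace Pool.Agent.Helper57.CTG

open Pool.Agent.Helper53.CTG
open Pool.Agent.Helper1.TE (NumMach)
open Pool.Agent.Helper65.LinSpace (dig tab nrec ifz eq01 le01 lt01 capPow Ctx LS)

theorem acc_eq (ok : ℕ → ℕ → ℕ → ℕ → ℕ) (tst : ℕ → ℕ) (mal : ℕ) (x : Sta) (n : ℕ)
    (hn : x.mo = n) (h : n ≠ 7) : (machM ok tst mal).acc x = 0 := by
  change eq01 x.mo 7 = 0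
  rw [hn]
  exact if_neg h

theorem toF_zero (N q b : ℕ) : toF N q b 0 0 = fun _ => (0, 0) := by
  funext j
  simp [toF, dig]

/-- Packet CTG-FCS. -/
theorem gFCS : GoalFCS := by
  intro hACC hFC0 hBS hMal hstep ok tst mal w
  have hinv : ∀ x, (machM ok tst mal).Reach w x → Inv ok tst mal w x := by
    intro x hx
    unfold NumMach.Reach at hx
    induction hx with
    | refl => exact Inv.m0 0 (fun i hi => absurd hi (Nat.not_lt_zero i))
    | tail _ hbc ih =>
      obtain ⟨γ, hγ, rfl⟩ := hbc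
      exact hstep ok tst mal w _ γ hγ ih
  refine ⟨hinv, ?_, ?_⟩
  · rintro ⟨x, hx, hacc⟩
    cases hinv x hx with
    | rej => exact absurd (acc_eq ok tst mal _ 8 rfl (by decide)) hacc
    | m0 N h1 => exact absurd (acc_eq ok tst mal _ 0 rfl (by decide)) hacc
    | m1 N q h1 => exact absurd (acc_eq ok tst mal _ 1 rfl (by decide)) hacc
    | m2 N q b h1 => exact absurd (acc_eq ok tst mal _ 2 rfl (by decide)) hacc
    | m3 N q b c h1 => exact absurd (acc_eq ok tst mal _ 3 rfl (by decide)) hacc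
    | m4 N q b c u h1 hu h2 => exact absurd (acc_eq ok tst mal _ 4 rfl (by decide)) hacc
    | m5 N q b c u h1 hu => exact absurd (acc_eq ok tst mal _ 5 rfl (by decide)) hacc
    | m6 N q b c u τ g t D X S A h1 hτ hu hg hD ht hX hS hC =>
      exact absurd (acc_eq ok tst mal _ 6 rfl (by decide)) hacc
    | m7 h1 => exact h1
  · have hend : (machM ok tst mal).acc accS ≠ 0 := by
      show eq01 7 7 ≠ 0
      simp [eq01]
    rintro (⟨N, q, b, c, hF, hroot⟩ | ⟨hm, hno⟩)
    · obtain ⟨-, -, hq1, hqN, hb1, hcb, -⟩ := hF.1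
      obtain ⟨s', γ, hγ, hrun⟩ := ((hACC tst w N q b c hq1 hqN hb1 hcb).1).2 hroot
      have claim : ∀ (t : ℕ) (s : (ℕ → ℕ × ℕ) × ℕ),
          runs (opM tst w N q b c) γ t (fun _ => (0, 0), 0) = some s → t ≤ 13 ^ Nt N q →
          (t < 13 ^ Nt N q → ∃ X S A, s = (toF N q b X S, A) ∧ X < (2 ^ Eb b) ^ (3 * q + 4) ∧
            S < (2 ^ Fb N q b) ^ (3 * q + 4) ∧
            (machM ok tst mal).Reach w
              (mainS N q b c 0 (2 ^ Et N q b c) t 0 0 (root N q) X S A)) ∧
          (t = 13 ^ Nt N q → (machM ok tst mal).Reach w accS) := by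
        intro t
        induction t with
        | zero =>
          intro s hs _
          rw [runs_zero, Option.some.injEq] at hs
          refine ⟨fun _ => ⟨0, 0, 0, ?_, by positivity, by positivity,
            hFC0 ok tst mal w N q b c hF⟩, fun h0 => ?_⟩
          · rw [← hs, toF_zero]
          · have : 0 < 13 ^ Nt N q := by positivity
            omega
        | succ t ih =>
          intro s hs ht
          obtain ⟨z, hz, hst⟩ := runs_succ_eq_some.1 hs
          obtain ⟨X, S, A, hzz, hX, hS, hR⟩ := (ih z hz (by omega)).1 (by omega)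
          rw [hzz] at hz hst
          obtain ⟨g1, g2⟩ := hBS ok tst mal w N q b c t (γ t) X S A s hF (by omega) (hγ t) hX hS
            ⟨γ, hγ, hz⟩ hR hst
          exact ⟨g2, g1⟩
      exact ⟨accS, (claim _ _ hrun le_rfl).2 rfl, hend⟩
    · exact ⟨accS, hMal ok tst mal w hm hno, hend⟩

end Pool.Agent.Helper57.CTG
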